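import Mathlib
import Pool.Agent.P8H51.SB.Fin
import Pool.Agent.P8H51.UB.Bound

/-!
# `A X + B Y = C Z` in products of small spread whose bases have few digits

Let `A`, `B`, `C` be positive integers, `Q`, `R` real, `D`, `k` natural numbers. Consider the triples `(X, Y, Z)` of Q1
(`A X + B Y = C Z`, `gcd (X, Y) / rad (gcd (X, Y)) ≤ Q`, product representations of `X`, `Y`, `Z` with
`∑ (s_W + 1) / n_W ≤ 1`; the value `1` is allowed, and nothing is assumed on `s_W ^ 2 / b_W`) with the following two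
properties: the degrees are at most `D`, and the three bases `b_X`, `b_Y`, `b_Z` have `k` digits to the same base: for some
integer `b ≥ 2` each of them is a sum of `k` terms `c b ^ e`, `c` an integer with `|c| ≤ R`. All of them, for all
`A`, `B`, `C`, `Q`, `R`, `D`, `k`, satisfy

  `max (X, Y, Z) ≤ exp ((128 k D log (A + B + C + Q + R)) ^ (73 k ^ 3))`.

The bound does not depend on `b`, it is explicit, and no deep theorem is used. In particular there is for every `k` a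
`δ > 0` such that only finitely many such triples have degrees at most `(log max (X, Y, Z)) ^ δ`, and `A`, `B`, `C`, `Q` and
digits at most `exp ((log max (X, Y, Z)) ^ δ)`.

Proof. If `b` is large, `A X + B Y - C Z` is an expansion to the base `b` with small digits; so all its digits are zero, and
the relation holds identically in `b`: the bases are `P_X (b)`, `P_Y (b)`, `P_Z (b)` for polynomials with few terms, and
`A P_X (t) (P_X (t) + 1) ... `, a product of small spread, satisfies the same relation. The Wronskian (Mason's inequality with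
the common factors kept: package POLY) and the condition on the greatest common divisor, transferred to polynomials (SQ, VAL),
show that the polynomials are constant. If `b` is small, replace it by a power; the exponents are then divided by gaps of
length `g` into blocks (`Stage.lean`) such that the same argument applies to `b ^ g` instead of `b`.

Packages POLY, SQ and VAL (`Pool/Agent/P8H71/UB/Poly.lean`, `Val.lean`) were proved by helper71.
-/

set_option autoImplicit false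

namespace Pool.Agent.Results.MP_4ffbf9_nt.FewDigits

open Pool.Agent.P8H51.SB Pool.Agent.P8H51.UB

/-- `n` is a sum of `k` terms `c b ^ e`, `c` an integer of absolute value at most `R` -/
def FewDigits (b k : ℕ) (R : ℝ) (n : ℕ) : Prop :=
  ∃ (c : Fin k → ℤ) (e : Fin k → ℕ), (∀ j, |(c j : ℝ)| ≤ R) ∧
    (n : ℤ) = ∑ j, c j * (b : ℤ) ^ (e j)

/-- `W` is a product of `n` positive integers, the smallest is `b` and the largest `b + s` -/
def Represents (W n b s : ℕ) : Prop :=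
  0 < b ∧ ∃ x : Fin n → ℕ, (∀ i, b ≤ x i ∧ x i ≤ b + s) ∧ (∃ i, x i = b) ∧ (∃ i, x i = b + s) ∧
    ∏ i, x i = W

/-- the triples of Q1 (with `F = 1` allowed, without the condition on `s ^ 2 / b`) of degrees at most `D` whose bases
are sums of `k` terms `c g ^ e`, `c` an integer with `|c| ≤ R`, for one integer `g ≥ 2` -/
def Solutions (A B C : ℕ) (Q : ℝ) (D k : ℕ) (R : ℝ) : Set (ℕ × ℕ × ℕ) :=
  {t | A * t.1 + B * t.2.1 = C * t.2.2 ∧
    ((Nat.gcd t.1 t.2.1 : ℝ) / (∏ p ∈ (Nat.gcd t.1 t.2.1).primeFactors, (p : ℝ)) ≤ Q) ∧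
    ∃ nX nY nZ bX bY bZ sX sY sZ : ℕ,
      Represents t.1 nX bX sX ∧ Represents t.2.1 nY bY sY ∧ Represents t.2.2 nZ bZ sZ ∧
      ((1 + (sX : ℝ)) / (nX : ℝ) + (1 + (sY : ℝ)) / (nY : ℝ) + (1 + (sZ : ℝ)) / (nZ : ℝ) ≤ 1) ∧
      nX ≤ D ∧ nY ≤ D ∧ nZ ≤ D ∧
      ∃ g : ℕ, 2 ≤ g ∧ FewDigits g k R bX ∧ FewDigits g k R bY ∧ FewDigits g k R bZ}

theorem exists_mult {W n b s D : ℕ} (h : Represents W n b s) (hn : n ≤ D) (hs : s ≤ D) :
    ∃ E : Fin (D + 1) → Fin (D + 1), ∑ j, (E j : ℕ) = n ∧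
      (∀ j : Fin (D + 1), s < (j : ℕ) → (E j : ℕ) = 0) ∧
      W = ∏ j : Fin (D + 1), (b + j) ^ (E j : ℕ) := by
  obtain ⟨_, x, hx, _, _, hW⟩ := h
  obtain ⟨E, h1, h2, h3⟩ := rep_mult x b s D hs hx
  exact ⟨fun j => Fin.castLE (by omega) (E j), by simpa using h1, by simpa using h2,
    by simpa [hW] using h3⟩

theorem npos {W n b s : ℕ} (h : Represents W n b s) : 0 < n := by
  obtain ⟨_, x, _, ⟨i, _⟩, _⟩ := h
  exact lt_of_le_of_lt (Nat.zero_le _) i.2

theorem lt_of_frac {n s : ℕ} (hn : 0 < n) (h : (1 + (s : ℝ)) / n < 1) : 1 + s < n := by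
  have hnR : (0 : ℝ) < n := by exact_mod_cast hn
  rw [div_lt_iff₀ hnR] at h
  have h1 : (1 + (s : ℝ)) < n := by linarith
  exact_mod_cast h1

/-- the digits of the three bases, with common exponents -/
theorem merge {k : ℕ} {R : ℝ} {g : ℕ} (x : Fin 3 → ℕ) (h : ∀ σ, FewDigits g k R (x σ)) :
    ∃ (c₀ : Fin 3 → Fin (3 * k) → ℤ) (e₀ : Fin (3 * k) → ℕ),
      (∀ σ i, |c₀ σ i| ≤ (⌊R⌋₊ : ℕ)) ∧
      ∀ σ, (x σ : ℤ) = ∑ i, c₀ σ i * (g : ℤ) ^ (e₀ i) := by
  classical
  choose c e hc hx using h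
  refine ⟨fun σ i => if (finProdFinEquiv.symm i).1 = σ then c σ (finProdFinEquiv.symm i).2 else 0,
    fun i => e (finProdFinEquiv.symm i).1 (finProdFinEquiv.symm i).2, ?_, ?_⟩
  · intro σ i
    dsimp only
    split_ifs with h1
    · have h2 := hc σ (finProdFinEquiv.symm i).2
      have h3 : (c σ (finProdFinEquiv.symm i).2).natAbs ≤ ⌊R⌋₊ := by
        refine Nat.le_floor ?_
        rw [Nat.cast_natAbs]
        push_cast
        exact h2
      rw [← Int.natCast_natAbs]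
      exact_mod_cast h3
    · simp
  · intro σ
    rw [hx σ, ← Equiv.sum_comp finProdFinEquiv, Fintype.sum_prod_type]
    simp only [Equiv.symm_apply_apply, ite_mul, zero_mul]
    rw [Finset.sum_eq_single σ]
    · simp
    · intro τ _ hτ
      simp [hτ]
    · simp

theorem pos_of_few {k : ℕ} {R : ℝ} {g n : ℕ} (hn : 0 < n) (h : FewDigits g k R n) :
    1 ≤ k ∧ 1 ≤ R := by
  obtain ⟨c, e, hc, hx⟩ := h
  have h1 : ∃ j, c j ≠ 0 := by
    by_contra h1
    have h2 : ∀ j, c j = 0 := fun j => by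
      by_contra h3
      exact h1 ⟨j, h3⟩
    have h3 : (n : ℤ) = 0 := by
      rw [hx]
      exact Finset.sum_eq_zero fun j _ => by rw [h2 j, zero_mul]
    omega
  obtain ⟨j, hj⟩ := h1
  refine ⟨lt_of_le_of_lt (Nat.zero_le _) j.2, ?_⟩
  have h2 : (1 : ℤ) ≤ |c j| := Int.one_le_abs hj
  have h3 : (1 : ℝ) ≤ |(c j : ℝ)| := by exact_mod_cast h2
  exact h3.trans (hc j)

/-- the explicit bound in logarithmic form -/
theorem log_bound {A B C D k : ℕ} {Q R : ℝ} (hA : 0 < A) (hB : 0 < B) (hC : 0 < C)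
    {t : ℕ × ℕ × ℕ} (ht : t ∈ Solutions A B C Q D k R) :
    1 ≤ D ∧ 1 ≤ Real.log ((A : ℝ) + B + C + Q + R) ∧ 1 ≤ t.1 ∧
    Real.log ((max t.1 (max t.2.1 t.2.2) : ℕ) : ℝ) ≤
      (128 * k * D * Real.log ((A : ℝ) + B + C + Q + R)) ^ (73 * k ^ 3) := by
  obtain ⟨hrel, hgcd, nX, nY, nZ, bX, bY, bZ, sX, sY, sZ, hX, hY, hZ, hdeg, hnX, hnY, hnZ,
    g, hg, spX, spY, spZ⟩ := ht
  have pX := npos hX
  have pY := npos hY
  have pZ := npos hZ
  have fX : (0 : ℝ) < (1 + (sX : ℝ)) / nX := by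
    have : (0 : ℝ) < nX := by exact_mod_cast pX
    positivity
  have fY : (0 : ℝ) < (1 + (sY : ℝ)) / nY := by
    have : (0 : ℝ) < nY := by exact_mod_cast pY
    positivity
  have fZ : (0 : ℝ) < (1 + (sZ : ℝ)) / nZ := by
    have : (0 : ℝ) < nZ := by exact_mod_cast pZ
    positivity
  have lX := lt_of_frac pX (by linarith : (1 + (sX : ℝ)) / nX < 1)
  have lY := lt_of_frac pY (by linarith : (1 + (sY : ℝ)) / nY < 1)
  have lZ := lt_of_frac pZ (by linarith : (1 + (sZ : ℝ)) / nZ < 1)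
  obtain ⟨EX, eX1, eX2, eX3⟩ := exists_mult hX hnX (by omega : sX ≤ D)
  obtain ⟨EY, eY1, eY2, eY3⟩ := exists_mult hY hnY (by omega : sY ≤ D)
  obtain ⟨EZ, eZ1, eZ2, eZ3⟩ := exists_mult hZ hnZ (by omega : sZ ≤ D)
  have hρ : (0 : ℝ) < ∏ p ∈ (Nat.gcd t.1 t.2.1).primeFactors, (p : ℝ) :=
    Finset.prod_pos fun p hp => by exact_mod_cast (Nat.prime_of_mem_primeFactors hp).pos
  have hsol : Sol A B C 1 Q D (fun σ j => ((![EX, EY, EZ] : Fin 3 → Fin (D + 1) → Fin (D + 1)) σ j : ℕ))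
      ![bX, bY, bZ] ![nX, nY, nZ] ![sX, sY, sZ] ![t.1, t.2.1, t.2.2] := by
    refine ⟨hrel, ?_, ?_, ?_, ?_, ?_, ?_, ?_, ?_⟩
    · intro σ
      fin_cases σ
      · exact hX.1
      · exact hY.1
      · exact hZ.1
    · intro σ
      fin_cases σ
      · exact hnX
      · exact hnY
      · exact hnZ
    · intro σ
      fin_cases σ
      · exact eX1
      · exact eY1
      · exact eZ1
    · intro σ
      fin_cases σ
      · exact eX2
      · exact eY2
      · exact eZ2
    · intro σ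
      fin_cases σ
      · exact lX
      · exact lY
      · exact lZ
    · intro σ
      fin_cases σ
      · exact eX3
      · exact eY3
      · exact eZ3
    · rw [Fin.sum_univ_three]
      exact hdeg
    · show ((Nat.gcd t.1 t.2.1 : ℕ) : ℝ) ≤
        Q * ((∏ p ∈ (Nat.gcd t.1 t.2.1).primeFactors, p : ℕ) : ℝ)
      rw [div_le_iff₀ hρ] at hgcd
      push_cast
      exact hgcd
  have hsp : ∀ σ, FewDigits g k R ((![bX, bY, bZ] : Fin 3 → ℕ) σ) := by
    intro σ
    fin_cases σ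
    · exact spX
    · exact spY
    · exact spZ
  have h1 : 1 ≤ t.1 := hsol.Wpos 0
  have h2 : 1 ≤ t.2.1 := hsol.Wpos 1
  obtain ⟨hk, hR⟩ := pos_of_few hX.1 spX
  have hD1 : 1 ≤ D := by omega
  have hDR : (1 : ℝ) ≤ D := by exact_mod_cast hD1
  have hkR : (1 : ℝ) ≤ k := by exact_mod_cast hk
  -- `Q` is at least one
  have hQ : 1 ≤ Q := by
    refine le_trans ?_ hgcd
    rw [le_div_iff₀ hρ, one_mul]
    have h3 : ∏ p ∈ (Nat.gcd t.1 t.2.1).primeFactors, p ≤ Nat.gcd t.1 t.2.1 :=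
      Nat.le_of_dvd (Nat.gcd_pos_of_pos_left _ h1) (Nat.prod_primeFactors_dvd _)
    have h4 : ((∏ p ∈ (Nat.gcd t.1 t.2.1).primeFactors, p : ℕ) : ℝ) ≤
      ((Nat.gcd t.1 t.2.1 : ℕ) : ℝ) := Nat.cast_le.2 h3
    rw [Nat.cast_prod] at h4
    exact h4
  obtain ⟨U, hU⟩ : ∃ U : ℝ, U = (A : ℝ) + B + C + Q + R := ⟨_, rfl⟩
  have hAR : (1 : ℝ) ≤ A := by exact_mod_cast hA
  have hBR : (1 : ℝ) ≤ B := by exact_mod_cast hB
  have hCR : (1 : ℝ) ≤ C := by exact_mod_cast hC
  have hU5 : 5 ≤ U := by rw [hU]; linarith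
  have hlU : 1.386 ≤ Real.log U := by
    have h3 : Real.log (2 ^ 2) ≤ Real.log U := Real.log_le_log (by norm_num) (by linarith)
    rw [Real.log_pow] at h3
    have := Real.log_two_gt_d9
    push_cast at h3
    linarith
  rw [← hU]
  -- the parameters
  obtain ⟨T, hT⟩ : ∃ T : ℝ, T = (((3 * k : ℕ) : ℝ) + 1) * D * Real.log U := ⟨_, rfl⟩
  have hk1 : (1 : ℝ) ≤ ((3 * k : ℕ) : ℝ) + 1 := by push_cast; linarith
  have hTU : Real.log U ≤ T := by
    rw [hT]
    have : (1 : ℝ) ≤ (((3 * k : ℕ) : ℝ) + 1) * D := by nlinarith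
    nlinarith
  have hTD : (D : ℝ) ≤ T := by
    rw [hT]
    have h3 : (1 : ℝ) ≤ (((3 * k : ℕ) : ℝ) + 1) * Real.log U := by nlinarith
    nlinarith
  have hTk : (((3 * k : ℕ) : ℝ) + 1) ≤ T := by
    rw [hT]
    have h3 : (1 : ℝ) ≤ (D : ℝ) * Real.log U := by nlinarith
    nlinarith
  have hU2 : Real.log (U ^ 2) = 2 * Real.log U := by rw [Real.log_pow]; push_cast; ring
  have htQ : ((⌈Q⌉₊ : ℕ) : ℝ) < Q + 1 := Nat.ceil_lt_add_one (by linarith)
  obtain ⟨h, hh⟩ : ∃ h : ℕ, h = Nat.clog 2 (4 * (⌈Q⌉₊ + 1)) := ⟨_, rfl⟩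
  have hhT : (h : ℝ) ≤ 4 * T := by
    have h3 : 2 ^ (Nat.clog 2 (4 * (⌈Q⌉₊ + 1))).pred < 4 * (⌈Q⌉₊ + 1) :=
      Nat.pow_pred_clog_lt_self (by norm_num) (by omega)
    rw [← hh] at h3
    have h4 : ((2 : ℝ)) ^ h.pred < 4 * (((⌈Q⌉₊ : ℕ) : ℝ) + 1) := by exact_mod_cast h3
    have h5 : Real.log ((2 : ℝ) ^ h.pred) ≤ Real.log (U ^ 2) := by
      refine Real.log_le_log (by positivity) (h4.le.trans ?_)
      nlinarith
    rw [Real.log_pow, hU2] at h5
    have h6 : (h : ℝ) ≤ (h.pred : ℝ) + 1 := by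
      have : h ≤ h.pred + 1 := by
        rw [Nat.pred_eq_sub_one]
        omega
      exact_mod_cast this
    have h7 := Real.log_two_gt_d9
    have h8 : (0 : ℝ) ≤ (h.pred : ℝ) := by positivity
    nlinarith
  obtain ⟨c₀, e₀, hc₀, hx₀⟩ := merge _ hsp
  have hbase := fun σ => base_bound (k := 3 * k) (H := ⌊R⌋₊) (h := h) (b := g) hA hB hC T
    (Nat.le_ceil Q)
    (by rw [hh]; exact Nat.le_pow_clog (by norm_num) _) hTk hTD
    (by
      refine (Real.log_le_log (by positivity) ?_).trans hTU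
      have := Nat.floor_le (by linarith : (0 : ℝ) ≤ R)
      rw [hU]
      linarith)
    (by
      have h3 : (A : ℝ) + B + C + ((⌈Q⌉₊ : ℕ) : ℝ) + 3 ≤ U ^ 2 := by nlinarith
      have h4 := Real.log_le_log (by positivity) h3
      rw [hU2] at h4
      linarith) hhT hsol c₀ e₀ hg hc₀ hx₀ σ
  have hT1 : 1 ≤ T := hDR.trans hTD
  -- the bound for a value
  have hval : ∀ σ, Real.log ((![t.1, t.2.1, t.2.2] : Fin 3 → ℕ) σ) ≤
      (128 * k * D * Real.log U) ^ (73 * k ^ 3) := by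
    intro σ
    have hb1 := hbase σ
    have hb0 := hsol.bpos σ
    obtain ⟨x, hx⟩ : ∃ x : ℕ, x = (![bX, bY, bZ] : Fin 3 → ℕ) σ := ⟨_, rfl⟩
    rw [← hx] at hb1 hb0
    have h3 : (![t.1, t.2.1, t.2.2] : Fin 3 → ℕ) σ ≤ (x * (D + 1)) ^ D := by
      rw [hsol.prod σ]
      refine (Finset.prod_le_prod' (g := fun j : Fin (D + 1) => (x * (D + 1)) ^
        ((![EX, EY, EZ] : Fin 3 → Fin (D + 1) → Fin (D + 1)) σ j : ℕ)) fun j _ =>
          Nat.pow_le_pow_left ?_ _).trans ?_
      · have hj : (j : ℕ) ≤ D := by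
          have := j.2
          omega
        rw [← hx]
        nlinarith
      · rw [Finset.prod_pow_eq_pow_sum, hsol.sum σ]
        exact Nat.pow_le_pow_right (Nat.mul_pos hb0 (by omega)) (hsol.nle σ)
    have hxR : (0 : ℝ) < x := by exact_mod_cast hb0
    have h4 : Real.log ((![t.1, t.2.1, t.2.2] : Fin 3 → ℕ) σ) ≤
        D * (Real.log x + D) := by
      have h5 : (((![t.1, t.2.1, t.2.2] : Fin 3 → ℕ) σ : ℕ) : ℝ) ≤
          ((x : ℝ) * ((D : ℝ) + 1)) ^ D := by exact_mod_cast h3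
      have h6 : (0 : ℝ) < ((![t.1, t.2.1, t.2.2] : Fin 3 → ℕ) σ : ℕ) := by
        exact_mod_cast hsol.Wpos σ
      refine (Real.log_le_log h6 h5).trans ?_
      rw [Real.log_pow, Real.log_mul (by positivity) (by positivity)]
      have h7 := log_succ_le_nat D
      exact mul_le_mul_of_nonneg_left (by linarith) (by positivity)
    obtain ⟨P, hP⟩ : ∃ P : ℝ, P = (32 * T) ^ ((3 * k + 1) * ((3 * k + 1) * (3 * k + 1) + 1) + 4) :=
      ⟨_, rfl⟩
    rw [← hP] at hb1
    have h5 : T ≤ P := by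
      rw [hP]
      calc T ≤ (32 * T) ^ 1 := by linarith [pow_one (32 * T)]
        _ ≤ _ := pow_le_pow_right₀ (by linarith) (by omega)
    have hlx : 0 ≤ Real.log x := Real.log_nonneg (by exact_mod_cast hb0)
    have h6 : (D : ℝ) * (Real.log x + D) ≤ T * (P + P) :=
      mul_le_mul hTD (by linarith) (by positivity) (by linarith)
    have h7 : T * (P + P) ≤
        (32 * T) ^ ((3 * k + 1) * ((3 * k + 1) * (3 * k + 1) + 1) + 5) := by
      rw [pow_succ, ← hP]
      nlinarith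
    have h8 : 32 * T ≤ 128 * k * D * Real.log U := by
      rw [hT]
      push_cast
      have h9 : 32 * (3 * (k : ℝ) + 1) ≤ 128 * k := by linarith
      have h10 : (0 : ℝ) ≤ (D : ℝ) * Real.log U := by positivity
      nlinarith
    have h9 : (3 * k + 1) * ((3 * k + 1) * (3 * k + 1) + 1) + 5 ≤ 73 * k ^ 3 := by
      obtain ⟨m, rfl⟩ : ∃ m, k = m + 1 := ⟨k - 1, by omega⟩
      ring_nf
      nlinarith
    calc Real.log ((![t.1, t.2.1, t.2.2] : Fin 3 → ℕ) σ) ≤ T * (P + P) := h4.trans h6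
      _ ≤ _ := h7
      _ ≤ (128 * k * D * Real.log U) ^ ((3 * k + 1) * ((3 * k + 1) * (3 * k + 1) + 1) + 5) :=
          pow_le_pow_left₀ (by linarith) h8 _
      _ ≤ _ := pow_le_pow_right₀ (by linarith) h9
  refine ⟨hD1, by linarith, h1, ?_⟩
  rcases max_choice t.1 (max t.2.1 t.2.2) with h | h
  · rw [h]
    exact hval 0
  · rcases max_choice t.2.1 t.2.2 with h' | h'
    · rw [h, h']
      exact hval 1
    · rw [h, h']
      exact hval 2

/-- **Q1 for bases with few digits: an explicit bound.** Consider the triples of Q1 (with `∑ (s_W + 1) / n_W ≤ 1`, the value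
`1` allowed, and without condition on `s_W ^ 2 / b_W`) whose degrees are at most `D` and whose three bases are, for one
integer `g ≥ 2`, sums of `k` terms `c g ^ e` with integers `|c| ≤ R`. They satisfy
`max (X, Y, Z) ≤ exp ((128 k D log (A + B + C + Q + R)) ^ (73 k ^ 3))`, for all `A`, `B`, `C`, `Q`, `D`, `k`, `R`. For every
`k` there is `δ > 0` such that only finitely many `(X, Y, Z)` are of this kind for some `A`, `B`, `C`, `D`, `Q`, `R` with
`D ≤ (log max (X, Y, Z)) ^ δ` and `A + B + C + Q + R ≤ exp ((log max (X, Y, Z)) ^ δ)`. -/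
theorem result :
    (∀ (A B C D k : ℕ) (Q R : ℝ), 0 < A → 0 < B → 0 < C → ∀ t ∈ Solutions A B C Q D k R,
      ((max t.1 (max t.2.1 t.2.2) : ℕ) : ℝ) ≤
        Real.exp ((128 * k * D * Real.log ((A : ℝ) + B + C + Q + R)) ^ (73 * k ^ 3))) ∧
    ∀ k : ℕ, ∃ δ : ℝ, 0 < δ ∧
      {t : ℕ × ℕ × ℕ | ∃ (A B C D : ℕ) (Q R : ℝ), 0 < A ∧ 0 < B ∧ 0 < C ∧
        (D : ℝ) ≤ Real.log ((max t.1 (max t.2.1 t.2.2) : ℕ) : ℝ) ^ δ ∧
        (A : ℝ) + B + C + Q + R ≤
          Real.exp (Real.log ((max t.1 (max t.2.1 t.2.2) : ℕ) : ℝ) ^ δ) ∧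
        t ∈ Solutions A B C Q D k R}.Finite := by
  constructor
  · intro A B C D k Q R hA hB hC t ht
    obtain ⟨_, _, h1, h2⟩ := log_bound hA hB hC ht
    have h3 : (0 : ℝ) < ((max t.1 (max t.2.1 t.2.2) : ℕ) : ℝ) := by
      have : 0 < max t.1 (max t.2.1 t.2.2) := lt_of_lt_of_le h1 (le_max_left _ _)
      exact_mod_cast this
    rw [← Real.log_le_iff_le_exp h3]
    exact h2
  · intro k
    obtain ⟨p, hp⟩ : ∃ p : ℕ, p = 73 * k ^ 3 := ⟨_, rfl⟩
    obtain ⟨δ, hδ⟩ : ∃ δ : ℝ, δ = 1 / (4 * (p : ℝ) + 1) := ⟨_, rfl⟩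
    have hδ0 : 0 < δ := by rw [hδ]; positivity
    have hδp : 2 * (p : ℝ) * δ ≤ 1 / 2 := by
      rw [hδ, mul_one_div, div_le_div_iff₀ (by positivity) (by norm_num)]
      linarith
    refine ⟨δ, hδ0, ?_⟩
    obtain ⟨NN, hNN⟩ : ∃ NN : ℕ, NN = ⌊Real.exp ((128 * (k : ℝ)) ^ (2 * p) + 1)⌋₊ := ⟨_, rfl⟩
    refine (((Set.finite_Iic NN).prod ((Set.finite_Iic NN).prod (Set.finite_Iic NN))).subset ?_)
    rintro t ⟨A, B, C, D, Q, R, hA, hB, hC, hD, hU, ht⟩
    obtain ⟨hD1, hU1, h1, h2⟩ := log_bound hA hB hC ht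
    obtain ⟨M, hM⟩ : ∃ M : ℕ, M = max t.1 (max t.2.1 t.2.2) := ⟨_, rfl⟩
    rw [← hM] at hD hU h2
    rw [← hp] at h2
    have hM1 : 1 ≤ M := by
      rw [hM]
      exact h1.trans (le_max_left _ _)
    have hMR : (0 : ℝ) < M := by exact_mod_cast hM1
    have hMle : M ≤ NN := by
      rw [hNN]
      refine Nat.le_floor ?_
      rw [← Real.log_le_iff_le_exp hMR]
      obtain ⟨L, hL⟩ : ∃ L : ℝ, L = Real.log M := ⟨_, rfl⟩
      rw [← hL] at hD hU h2 ⊢
      have hL0 : 0 ≤ L := by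
        rw [hL]
        exact Real.log_nonneg (by exact_mod_cast hM1)
      rcases le_or_gt L 1 with hL1 | hL1
      · have : (0 : ℝ) ≤ (128 * (k : ℝ)) ^ (2 * p) := by positivity
        linarith
      have hUpos : 0 < (A : ℝ) + B + C + Q + R := by
        by_contra hneg
        rcases eq_or_lt_of_le (not_lt.1 hneg) with h4 | h4
        · rw [h4, Real.log_zero] at hU1
          linarith
        · exact absurd ht (by
            intro ht
            obtain ⟨_, hgcd, nX, nY, nZ, bX, bY, bZ, sX, sY, sZ, hX, _, _, _, _, _, _,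
              g, _, spX, _, _⟩ := ht
            have h5 := (pos_of_few hX.1 spX).2
            have h6 : 0 ≤ Q := le_trans (by positivity) hgcd
            have h7 : (0 : ℝ) ≤ (A : ℝ) + B + C := by positivity
            linarith)
      have hlog : Real.log ((A : ℝ) + B + C + Q + R) ≤ L ^ δ := by
        rw [Real.log_le_iff_le_exp hUpos]
        exact hU
      have hLδ : (0 : ℝ) ≤ L ^ δ := by positivity
      have h3 : L ≤ (128 * (k : ℝ)) ^ p * L ^ ((1 : ℝ) / 2) := by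
        refine h2.trans ?_
        have h4 : (128 * (k : ℝ) * D * Real.log ((A : ℝ) + B + C + Q + R)) ^ p ≤
            (128 * (k : ℝ) * L ^ δ * L ^ δ) ^ p := by
          refine pow_le_pow_left₀ (by
            have : (0 : ℝ) ≤ Real.log ((A : ℝ) + B + C + Q + R) := by linarith
            positivity) ?_ _
          refine mul_le_mul ?_ hlog (by linarith) (by positivity)
          exact mul_le_mul_of_nonneg_left hD (by positivity)
        refine h4.trans ?_
        rw [mul_assoc, mul_pow]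
        refine mul_le_mul_of_nonneg_left ?_ (by positivity)
        rw [← Real.rpow_add (by linarith), ← Real.rpow_natCast, ← Real.rpow_mul hL0]
        refine Real.rpow_le_rpow_of_exponent_le hL1.le ?_
        linarith
      have h4 : L = L ^ ((1 : ℝ) / 2) * L ^ ((1 : ℝ) / 2) := by
        rw [← Real.rpow_add (by linarith)]
        norm_num
      have h5 : 0 < L ^ ((1 : ℝ) / 2) := Real.rpow_pos_of_pos (by linarith) _
      have h6 : L ^ ((1 : ℝ) / 2) ≤ (128 * (k : ℝ)) ^ p := by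
        have h7 : L ^ ((1 : ℝ) / 2) * L ^ ((1 : ℝ) / 2) ≤
            (128 * (k : ℝ)) ^ p * L ^ ((1 : ℝ) / 2) := by
          rw [← h4]
          exact h3
        exact le_of_mul_le_mul_right h7 h5
      have h7 : L ≤ (128 * (k : ℝ)) ^ (2 * p) := by
        rw [h4, two_mul, pow_add]
        exact mul_le_mul h6 h6 h5.le (by positivity)
      linarith
    have h7 : t.1 ≤ M := by
      rw [hM]
      exact le_max_left _ _
    have h8 : t.2.1 ≤ M := by
      rw [hM]
      exact (le_max_left _ _).trans (le_max_right _ _)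
    have h9 : t.2.2 ≤ M := by
      rw [hM]
      exact (le_max_right _ _).trans (le_max_right _ _)
    exact ⟨h7.trans hMle, h8.trans hMle, h9.trans hMle⟩

end Pool.Agent.Results.MP_4ffbf9_nt.FewDigits
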