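import Pool.Agent.P8H49.WT.App
import Pool.Agent.Results.MP_4ffbf9_nt.FactorWindows

/-!
# Largest factors of solutions of `A X + B Y = C Z` in products of small spread, and denominators of good approximations

Let `G` be a function with steps bounded below by a positive constant and of growth at most `v^d`, `d ≥ 1` (`Expanding`; for
example `G(v) = v` or `a v^d`), `0 ≤ κ ≤ 1` and `ε > 0`. For all `S`, `Q`, `P` there are `R` and `δ > 0`, depending on `S`, `Q`, `P`, `d`
and `ε` only, such that for all `β ∈ ℝ^m` and `τ > 0`: for all `α ∈ ℝ^m` outside of a set of Hausdorff dimension at most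
`(m + κ + ε) / (1 + τ)` and all `c`, for all but finitely many solutions `q` of the inequalities `‖q α_j - β_j‖ ≤ c q^(-τ)`,
`j ≤ m`, there is NO solution of `A X + B Y = C Z` with `gcd (X, Y) ≤ Q rad (gcd (X, Y))`, coefficients `A, B, C ≤ exp (M ^ δ)`
without prime factors larger than `P` and `X`, `Y`, `Z` products of spread at most `S` of degrees between `R` and `M ^ δ`,
whose largest factor `M` satisfies `|M - G(q)| ≤ q^κ`.

For `τ = 1 / m`, `β = 0` these `q` include the denominators of all best simultaneous approximations (for `m = 1` all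
denominators of the convergents of `α`), a sequence which grows exponentially; for `κ + ε < 1` the dimension is less than `m` in
this case, and so the statement holds for almost all `α`.

The number of the largest factors `M ≤ X` of solutions is `O (X ^ η)` for suitable `R` and `δ` by the starting theorem
`HighDegreeCount` of this problem (in the form of the lemma `FactorWindows.count`); this is combined with a covering theorem
of the starting library. The other theorems of this kind for this problem are on sequences `α v_k` (`FactorWindows`) and on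
values of multiplicative and additive functions.
-/

set_option autoImplicit false

namespace Pool.Agent.Results.MP_4ffbf9_nt.GoodApproximations

open Pool.Agent.P8H49.WT (Few near_approx)
open Pool.Agent.N671.DA (Solves Expanding expanding_pow)
open Pool.Agent.Results.MP_4ffbf9_nt.FactorWindows (Member Coef Solved)

lemma few_solved {S Q P R : ℕ} {δ η : ℝ} (h : ∃ C : ℝ, 0 ≤ C ∧ ∀ X : ℕ, 1 ≤ X →
    ({n : ℕ | 1 ≤ n ∧ n ≤ X ∧ Solved S Q P R δ n}.ncard : ℝ) ≤ C * (X : ℝ) ^ η) :
    Few (fun n => ¬ Solved S Q P R δ n) η := by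
  intro ε hε
  obtain ⟨C, hC, h⟩ := h
  refine ⟨C, fun X hX => ?_⟩
  have hX1 : (1 : ℝ) ≤ X := by exact_mod_cast hX
  simp only [not_not]
  refine (h X hX).trans ?_
  exact mul_le_mul_of_nonneg_left (Real.rpow_le_rpow_of_exponent_le hX1 (by linarith)) hC

theorem result :
    (∀ S Q P : ℕ, ∀ d ε : ℝ, 1 ≤ d → 0 < ε → ∃ (R : ℕ) (δ : ℝ), 0 < δ ∧
      ∀ (G : ℕ → ℝ) (κ : ℝ), Expanding G d → 0 ≤ κ → κ ≤ 1 → ∀ (m : ℕ) (β : Fin m → ℝ) (τ : ℝ), 0 < τ →
        ∃ E : Set (Fin m → ℝ), dimH E ≤ ENNReal.ofReal ((m + κ + ε) / (1 + τ)) ∧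
          ∀ α, α ∉ E → ∀ c : ℝ, ∃ q₀ : ℕ, ∀ q : ℕ, q₀ ≤ q → Solves α β q (c * (q : ℝ) ^ (-τ)) →
            ∀ M : ℕ, 1 ≤ M → |(M : ℝ) - G q| ≤ (q : ℝ) ^ κ → ¬ Solved S Q P R δ M) ∧
    ∀ a d : ℝ, 0 < a → 1 ≤ d → Expanding (fun v => a * (v : ℝ) ^ d) d := by
  classical
  refine ⟨fun S Q P d ε hd hε => ?_, fun a d ha hd => expanding_pow ha hd⟩
  have hd0 : 0 < d := by linarith
  obtain ⟨R, δ, hδ, C, hC, h⟩ := FactorWindows.count S Q P (ε / d) (div_pos hε hd0)
  refine ⟨R, δ, hδ, fun G κ hG hκ hκ1 m β τ hτ => ?_⟩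
  have hfew : Few (fun n => ¬ Solved S Q P R δ n) (ε / d) := by
    refine few_solved ⟨C, hC, fun X hX => le_trans (le_of_eq ?_) (h X hX)⟩
    rw [← Set.ncard_coe_finset]
    congr 2
    ext n
    simp only [Finset.coe_filter, Finset.mem_Ioc, Set.mem_ofPred_eq]
    constructor
    · rintro ⟨h1, h2, h3⟩
      exact ⟨⟨by omega, h2⟩, h3⟩
    · rintro ⟨⟨h1, h2⟩, h3⟩
      exact ⟨by omega, h2, h3⟩
  obtain ⟨E, hE, hE2⟩ := near_approx (P := fun n => ¬ Solved S Q P R δ n) (div_pos hε hd0).le hfew hG hκ hκ1 β hτ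
  refine ⟨E, ?_, hE2⟩
  have e : (m : ℝ) + (d * (ε / d) + κ) = m + κ + ε := by
    field_simp
    ring
  rw [e] at hE
  exact hE

end Pool.Agent.Results.MP_4ffbf9_nt.GoodApproximations
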