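import Mathlib
import Pool.Agent.P8H51.EB.Luc

/-!
# `A X + B Y = C Z` in products of small spread whose bases are sums of few Lucas numbers

Let `A`, `B`, `C` be positive integers, `F < 1`, `Q`, `M` real, `D`, `k` natural numbers, `ν ≥ 1` a natural number. Consider the
triples `(X, Y, Z)` with `A X + B Y = C Z`, `gcd (X, Y) ≤ Q`, product representations of `X`, `Y`, `Z` with `∑ (s_W + 1) / n_W ≤ F`
and degrees at most `D` (nothing is assumed on `s_W ^ 2 / b_W`) with the following property: for some number field `K` of degree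
`n` and some unit `u` of `K`, each conjugate `u'` of which satisfies `v ≤ |u'| ≤ v ^ ν` or `|u'| ≤ 1 / v` for some `v > 1`, each of
the three bases `b_X`, `b_Y`, `b_Z` is a sum of `k` terms `c u ^ a`, `a ∈ ℤ`, where `c` is an algebraic integer of `K` all of
whose conjugates have absolute value at most `M`. All of them satisfy

  `max (X, Y, Z) ≤ exp ((13440 ν k D n log (A + B + C + D + Q + M)) ^ (2 (3 k + 4) ^ 3) / (1 - F))`.

The bound depends on `u` only through `ν`, and on `K` only through the degree. For instance `K` may be any real quadratic field,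
`u` any of its units greater than one, `ν = 1`, and the bases sums of `k / 2` Lucas numbers `V_a = u ^ a + u' ^ a` (`u'` the conjugate
of `u`) with bounded coefficients; as all sequences of Lucas `V_a (P, ± 1)` are of this form, the bound holds for sums of few terms
of any one of these sequences, uniformly in `P`.

Proof. The explicit abc inequality for numbers with few digits to the base of a unit (`Pool/Agent/P8H51/EB/FinalU.lean`, the case of
three terms, see `MP_7475bd_nt.UnitDigits`) is applied to `A X + B Y - C Z = 0`. The different factors of `X`, at most `s_X + 1` in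
number, have a product of about `X ^ ((s_X + 1) / n_X)` at most, so the inequality says that `n log (C Z)` is at most `n F log (C Z)` and
a constant. All factors of the three products share the digits of the bases, so the exponent does not depend on the degrees.

Packages UPT, ROT of the abc inequality were proved by helper71, GCTQ by helper88, LOT2 by helper84 and CUT2 by helper46 (both after
packages of helper71).
-/

set_option autoImplicit false

namespace Pool.Agent.Results.MP_4ffbf9_nt.LucasDigits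

open NumberField

/-- `x` is a sum of `k` terms `c u ^ a`, where `a ∈ ℤ` and `c` is an algebraic integer of `K` all of whose conjugates have
absolute value at most `M` -/
def FewPowers {K : Type} [Field K] (u : (𝓞 K)ˣ) (k : ℕ) (M : ℝ) (x : 𝓞 K) : Prop :=
  ∃ (c : Fin k → 𝓞 K) (a : Fin k → ℤ), (∀ j (φ : K →+* ℂ), ‖φ (c j)‖ ≤ M) ∧
    x = ∑ j, c j * ((u ^ (a j) : (𝓞 K)ˣ) : 𝓞 K)

/-- for some `v > 1` each conjugate `u'` of `u` satisfies `v ≤ |u'| ≤ v ^ ν` or `|u'| ≤ 1 / v` -/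
def Ratio {K : Type} [Field K] (u : (𝓞 K)ˣ) (ν : ℕ) : Prop :=
  ∃ v : ℝ, 1 < v ∧ ∀ φ : K →+* ℂ, (v ≤ ‖φ ((u : 𝓞 K) : K)‖ ∧ ‖φ ((u : 𝓞 K) : K)‖ ≤ v ^ ν) ∨
    ‖φ ((u : 𝓞 K) : K)‖ ≤ v⁻¹

/-- `W` is a product of `n` positive integers, the smallest is `b` and the largest `b + s` -/
def Represents (W n b s : ℕ) : Prop :=
  0 < b ∧ ∃ x : Fin n → ℕ, (∀ i, b ≤ x i ∧ x i ≤ b + s) ∧ (∃ i, x i = b) ∧ (∃ i, x i = b + s) ∧
    ∏ i, x i = W

/-- the triples of Q1 (without the condition on `s ^ 2 / b`) with `gcd (X, Y) ≤ Q`, of degrees at most `D`, whose bases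
are sums of `k` terms `c u ^ a` as above -/
def Solutions {K : Type} [Field K] (u : (𝓞 K)ˣ) (A B C : ℕ) (F Q : ℝ) (D k : ℕ) (M : ℝ) :
    Set (ℕ × ℕ × ℕ) :=
  {t | A * t.1 + B * t.2.1 = C * t.2.2 ∧ (Nat.gcd t.1 t.2.1 : ℝ) ≤ Q ∧
    ∃ nX nY nZ bX bY bZ sX sY sZ : ℕ,
      Represents t.1 nX bX sX ∧ Represents t.2.1 nY bY sY ∧ Represents t.2.2 nZ bZ sZ ∧
      ((1 + (sX : ℝ)) / (nX : ℝ) + (1 + (sY : ℝ)) / (nY : ℝ) + (1 + (sZ : ℝ)) / (nZ : ℝ) ≤ F) ∧
      nX ≤ D ∧ nY ≤ D ∧ nZ ≤ D ∧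
      FewPowers u k M (bX : 𝓞 K) ∧ FewPowers u k M (bY : 𝓞 K) ∧ FewPowers u k M (bZ : 𝓞 K)}

theorem npos {W n b s : ℕ} (h : Represents W n b s) : 0 < n := by
  obtain ⟨_, x, _, ⟨i, _⟩, _⟩ := h
  exact lt_of_le_of_lt (Nat.zero_le _) i.2

theorem lt_of_frac {n s : ℕ} (hn : 0 < n) (h : (1 + (s : ℝ)) / n < 1) : 1 + s < n := by
  have hnR : (0 : ℝ) < n := by exact_mod_cast hn
  rw [div_lt_iff₀ hnR] at h
  have h1 : (1 + (s : ℝ)) < n := by linarith
  exact_mod_cast h1

/-- the bound -/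
theorem bound (K : Type) [Field K] [NumberField K] (u : (𝓞 K)ˣ) (ν : ℕ) (hν : 1 ≤ ν)
    (hu : Ratio u ν) (A B C D k : ℕ)
    (F Q M : ℝ) (hA : 0 < A) (hB : 0 < B) (hC : 0 < C) (hF : F < 1) (t : ℕ × ℕ × ℕ)
    (ht : t ∈ Solutions u A B C F Q D k M) :
    ((max t.1 (max t.2.1 t.2.2) : ℕ) : ℝ) ≤
      Real.exp ((13440 * ν * k * D * Module.finrank ℚ K *
        Real.log ((A : ℝ) + B + C + D + Q + M)) ^ (2 * (3 * k + 4) ^ 3) / (1 - F)) := by
  obtain ⟨v, hv, hu⟩ := hu
  obtain ⟨hrel, hgcd, nX, nY, nZ, bX, bY, bZ, sX, sY, sZ, hX, hY, hZ, hdeg, hnX, hnY, hnZ,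
    ⟨cX, aX, hcX, hbX⟩, ⟨cY, aY, hcY, hbY⟩, ⟨cZ, aZ, hcZ, hbZ⟩⟩ := ht
  have pX := npos hX
  have pY := npos hY
  have pZ := npos hZ
  have fX : (0 : ℝ) < (1 + (sX : ℝ)) / nX := by
    have : (0 : ℝ) < nX := by exact_mod_cast pX
    positivity
  have fY : (0 : ℝ) < (1 + (sY : ℝ)) / nY := by
    have : (0 : ℝ) < nY := by exact_mod_cast pY
    positivity
  have fZ : (0 : ℝ) < (1 + (sZ : ℝ)) / nZ := by
    have : (0 : ℝ) < nZ := by exact_mod_cast pZ
    positivity
  have lX := lt_of_frac pX (by linarith : (1 + (sX : ℝ)) / nX < 1)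
  have lY := lt_of_frac pY (by linarith : (1 + (sY : ℝ)) / nY < 1)
  have lZ := lt_of_frac pZ (by linarith : (1 + (sZ : ℝ)) / nZ < 1)
  obtain ⟨hbX0, xX, hxX, _, _, hWX⟩ := hX
  obtain ⟨hbY0, xY, hxY, _, _, hWY⟩ := hY
  obtain ⟨hbZ0, xZ, hxZ, _, _, hWZ⟩ := hZ
  obtain ⟨EX, eX1, eX2, eX3⟩ := Pool.Agent.P8H51.EA.Luc.rep_mult xX bX sX D (by omega) hxX
  obtain ⟨EY, eY1, eY2, eY3⟩ := Pool.Agent.P8H51.EA.Luc.rep_mult xY bY sY D (by omega) hxY
  obtain ⟨EZ, eZ1, eZ2, eZ3⟩ := Pool.Agent.P8H51.EA.Luc.rep_mult xZ bZ sZ D (by omega) hxZ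
  rw [hWX] at eX3
  rw [hWY] at eY3
  rw [hWZ] at eZ3
  have hmain := Pool.Agent.P8H51.EB.Luc.main K u v ν hν hv ⟨u.ne_zero, hu⟩ hA hB hC (F := F) (Q := Q) (M := M)
    (D := D) ![bX, bY, bZ] ![sX, sY, sZ] ![nX, nY, nZ] ![t.1, t.2.1, t.2.2]
    (by intro σ; fin_cases σ <;> assumption)
    (by intro σ; fin_cases σ <;> assumption)
    (by intro σ; fin_cases σ <;> assumption)
    (by
      intro σ
      fin_cases σ
      · show sX + 1 ≤ D
        omega
      · show sY + 1 ≤ D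
        omega
      · show sZ + 1 ≤ D
        omega)
    ![EX, EY, EZ]
    (by intro σ; fin_cases σ <;> assumption)
    (by intro σ; fin_cases σ <;> assumption)
    (by intro σ; fin_cases σ <;> assumption)
    hrel hgcd
    (by
      rw [Fin.sum_univ_three]
      exact hdeg)
    ![cX, cY, cZ] ![aX, aY, aZ]
    (by intro σ; fin_cases σ <;> assumption)
    (by intro σ; fin_cases σ <;> assumption)
  have hWpos : 0 < t.2.2 := by
    rw [← hWZ]
    exact Finset.prod_pos fun i _ => lt_of_lt_of_le hbZ0 (hxZ i).1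
  have hG : max t.1 (max t.2.1 t.2.2) ≤ C * t.2.2 := by
    have h1 : t.1 ≤ A * t.1 := Nat.le_mul_of_pos_left _ hA
    have h2 : t.2.1 ≤ B * t.2.1 := Nat.le_mul_of_pos_left _ hB
    have h3 : t.2.2 ≤ C * t.2.2 := Nat.le_mul_of_pos_left _ hC
    omega
  have hG0 : (0 : ℝ) < ((C * t.2.2 : ℕ) : ℝ) := by exact_mod_cast Nat.mul_pos hC hWpos
  refine le_trans (by exact_mod_cast hG : ((max t.1 (max t.2.1 t.2.2) : ℕ) : ℝ) ≤
    ((C * t.2.2 : ℕ) : ℝ)) ?_
  rw [← Real.log_le_iff_le_exp hG0, le_div_iff₀ (by linarith), mul_comm]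
  exact hmain

/-- **Q1 for bases with few digits in a unit: an explicit bound**, uniform in the unit; in particular there are only finitely
many such triples for all number fields of degree `n` and all their units `u` with `Ratio u ν` taken together. -/
theorem result :
    (∀ (K : Type) [Field K] [NumberField K] (u : (𝓞 K)ˣ) (ν : ℕ), 1 ≤ ν → Ratio u ν →
      ∀ (A B C D k : ℕ) (F Q M : ℝ), 0 < A → 0 < B → 0 < C → F < 1 →
      ∀ t ∈ Solutions u A B C F Q D k M, ((max t.1 (max t.2.1 t.2.2) : ℕ) : ℝ) ≤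
        Real.exp ((13440 * ν * k * D * Module.finrank ℚ K *
          Real.log ((A : ℝ) + B + C + D + Q + M)) ^ (2 * (3 * k + 4) ^ 3) / (1 - F))) ∧
    ∀ (A B C D k n ν : ℕ) (F Q M : ℝ), 0 < A → 0 < B → 0 < C → F < 1 → 1 ≤ ν →
      {t : ℕ × ℕ × ℕ | ∃ (K : Type) (_ : Field K) (_ : NumberField K) (u : (𝓞 K)ˣ),
        Module.finrank ℚ K = n ∧ Ratio u ν ∧ t ∈ Solutions u A B C F Q D k M}.Finite := by
  refine ⟨?_, ?_⟩
  · intro K _ _ u ν hν hu A B C D k F Q M hA hB hC hF t ht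
    exact bound K u ν hν hu A B C D k F Q M hA hB hC hF t ht
  · intro A B C D k n ν F Q M hA hB hC hF hν
    obtain ⟨N, hN⟩ : ∃ N : ℕ, N = ⌊Real.exp ((13440 * ν * k * D * n *
      Real.log ((A : ℝ) + B + C + D + Q + M)) ^ (2 * (3 * k + 4) ^ 3) / (1 - F))⌋₊ := ⟨_, rfl⟩
    refine (((Set.finite_Iic N).prod ((Set.finite_Iic N).prod (Set.finite_Iic N))).subset ?_)
    rintro t ⟨K, _, _, u, hn, hu, ht⟩
    have h1 := bound K u ν hν hu A B C D k F Q M hA hB hC hF t ht
    rw [hn] at h1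
    have h2 : max t.1 (max t.2.1 t.2.2) ≤ N := by
      rw [hN]
      exact Nat.le_floor h1
    exact ⟨(le_max_left _ _).trans h2,
      ((le_max_left _ _).trans (le_max_right _ _)).trans h2,
      ((le_max_right _ _).trans (le_max_right _ _)).trans h2⟩

end Pool.Agent.Results.MP_4ffbf9_nt.LucasDigits
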