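import Mathlib
import Pool.Agent.P8H51.SB.Fin

/-!
# `A X + B Y = C Z` in products of small spread with sparse bases

Let `A`, `B`, `C` be positive integers, `F < 1`, `Q` real, `Γ` a finitely generated group of rational numbers (for instance
the `S`-units) and `D`, `k` natural numbers. Consider the triples `(X, Y, Z)` of Q1 (`A X + B Y = C Z`,
`gcd (X, Y) / rad (gcd (X, Y)) ≤ Q`, product representations of `X`, `Y`, `Z` with `∑ (s_W + 1) / n_W ≤ F`) with the
following two properties: the degrees are at most `D`, and the three bases `b_X`, `b_Y`, `b_Z` are sums of `k` products `u c`,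
`u ∈ Γ`, `c` an integer with `|c| ≤ M` (a digit). There is `K` such that all of them, for all `M ≥ 1`, satisfy
`max (X, Y, Z) ≤ (K M) ^ K`. So there is `δ > 0` such that only finitely many have digits at most `max (X, Y, Z) ^ δ`.
Nothing is assumed on `s_W ^ 2 / b_W`.

Proof. `A X`, `B Y`, `-C Z` are products of powers of sums of `k + 1` products of elements of a finitely generated group and
digits. For such integers project HA of the starting library proves, by the subspace theorem, an inequality of the form of the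
`n`-term abc inequality, with the greatest common divisor of the terms as a factor; this factor can be large here. The main
point (`Pool/Agent/P8H51/SB/Tab.lean`, `Germ.lean`, `Main.lean`) is that it may be replaced, up to its part in the primes of
`Γ`, by the greatest common divisor of the repeated parts `∏ x_i ^ (e_i - 1)` of the terms, and this divides
`gcd (X, Y) / rad (gcd (X, Y)) ≤ Q` (`Arith.lean`). The points in the exceptional set of the inequality have finitely many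
ratios `X : Y`, and for a given ratio a repeated factor of `X` divides a bounded number (`Ratio.lean`).
-/

set_option autoImplicit false

namespace Pool.Agent.Results.MP_4ffbf9_nt.SparseBases

open Pool.Agent.P8H51.SB

/-- `n` is a sum of `k` products of an element of `Γ` and an integer of absolute value at most `R` -/
def Sparse (Γ : Subgroup ℚˣ) (k : ℕ) (R : ℝ) (n : ℕ) : Prop :=
  ∃ (u : Fin k → Γ) (c : Fin k → ℤ), (∀ j, |(c j : ℝ)| ≤ R) ∧
    (n : ℚ) = ∑ j, ((u j : ℚˣ) : ℚ) * c j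

/-- `W` is a product of `n` positive integers, the smallest is `b` and the largest `b + s` -/
def Represents (W n b s : ℕ) : Prop :=
  0 < b ∧ ∃ x : Fin n → ℕ, (∀ i, b ≤ x i ∧ x i ≤ b + s) ∧ (∃ i, x i = b) ∧ (∃ i, x i = b + s) ∧
    ∏ i, x i = W

/-- the triples of Q1 of degrees at most `D` whose bases are sums of `k` products of an element of `Γ` and an integer of
absolute value at most `R` -/
def Solutions (A B C : ℕ) (F Q : ℝ) (D k : ℕ) (Γ : Subgroup ℚˣ) (R : ℝ) : Set (ℕ × ℕ × ℕ) :=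
  {t | A * t.1 + B * t.2.1 = C * t.2.2 ∧
    ((Nat.gcd t.1 t.2.1 : ℝ) / (∏ p ∈ (Nat.gcd t.1 t.2.1).primeFactors, (p : ℝ)) ≤ Q) ∧
    ∃ nX nY nZ bX bY bZ sX sY sZ : ℕ,
      Represents t.1 nX bX sX ∧ Represents t.2.1 nY bY sY ∧ Represents t.2.2 nZ bZ sZ ∧
      ((1 + (sX : ℝ)) / (nX : ℝ) + (1 + (sY : ℝ)) / (nY : ℝ) + (1 + (sZ : ℝ)) / (nZ : ℝ) ≤ F) ∧
      nX ≤ D ∧ nY ≤ D ∧ nZ ≤ D ∧ Sparse Γ k R bX ∧ Sparse Γ k R bY ∧ Sparse Γ k R bZ}

theorem exists_mult {W n b s D : ℕ} (h : Represents W n b s) (hn : n ≤ D) (hs : s ≤ D) :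
    ∃ E : Fin (D + 1) → Fin (D + 1), ∑ j, (E j : ℕ) = n ∧
      (∀ j : Fin (D + 1), s < (j : ℕ) → (E j : ℕ) = 0) ∧
      W = ∏ j : Fin (D + 1), (b + j) ^ (E j : ℕ) := by
  obtain ⟨_, x, hx, _, _, hW⟩ := h
  obtain ⟨E, h1, h2, h3⟩ := rep_mult x b s D hs hx
  exact ⟨fun j => Fin.castLE (by omega) (E j), by simpa using h1, by simpa using h2,
    by simpa [hW] using h3⟩

theorem npos {W n b s : ℕ} (h : Represents W n b s) : 0 < n := by
  obtain ⟨_, x, _, ⟨i, _⟩, _⟩ := h
  exact lt_of_le_of_lt (Nat.zero_le _) i.2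

theorem lt_of_frac {n s : ℕ} (hn : 0 < n) {F : ℝ} (hF : F < 1)
    (h : (1 + (s : ℝ)) / n ≤ F) : 1 + s < n := by
  have hnR : (0 : ℝ) < n := by exact_mod_cast hn
  rw [div_le_iff₀ hnR] at h
  have h1 : (1 + (s : ℝ)) < n := by nlinarith
  exact_mod_cast h1

/-- the solutions in logarithmic form -/
theorem log_bound (A B C : ℕ) (hA : 0 < A) (hB : 0 < B) (hC : 0 < C) (F Q : ℝ) (hF : F < 1)
    (D k : ℕ) (Γ : Subgroup ℚˣ) (hΓ : Γ.FG) :
    ∃ K0 : ℝ, 0 ≤ K0 ∧ ∀ M : ℝ, 1 ≤ M → ∀ t ∈ Solutions A B C F Q D k Γ M,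
      1 ≤ t.1 ∧ 1 ≤ t.2.1 ∧ 1 ≤ t.2.2 ∧
      Real.log ((max t.1 (max t.2.1 t.2.2) : ℕ) : ℝ) ≤ K0 * (1 + Real.log M) := by
  obtain ⟨N, C1, hC1, hall⟩ := all_E A B C hA hB hC F Q hF D k Γ hΓ
  refine ⟨C1 + Real.log (N + 1), add_nonneg hC1 (Real.log_nonneg (by
    have : (0 : ℝ) ≤ N := Nat.cast_nonneg _
    linarith)), ?_⟩
  rintro M hM t ⟨hrel, hgcd, nX, nY, nZ, bX, bY, bZ, sX, sY, sZ, hX, hY, hZ, hdeg, hnX, hnY, hnZ,
    spX, spY, spZ⟩
  have hlM : 0 ≤ Real.log M := Real.log_nonneg hM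
  have pX := npos hX
  have pY := npos hY
  have pZ := npos hZ
  have fX : (0 : ℝ) ≤ (1 + (sX : ℝ)) / nX := by positivity
  have fY : (0 : ℝ) ≤ (1 + (sY : ℝ)) / nY := by positivity
  have fZ : (0 : ℝ) ≤ (1 + (sZ : ℝ)) / nZ := by positivity
  have lX := lt_of_frac pX hF (by linarith : (1 + (sX : ℝ)) / nX ≤ F)
  have lY := lt_of_frac pY hF (by linarith : (1 + (sY : ℝ)) / nY ≤ F)
  have lZ := lt_of_frac pZ hF (by linarith : (1 + (sZ : ℝ)) / nZ ≤ F)
  obtain ⟨EX, eX1, eX2, eX3⟩ := exists_mult hX hnX (by omega : sX ≤ D)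
  obtain ⟨EY, eY1, eY2, eY3⟩ := exists_mult hY hnY (by omega : sY ≤ D)
  obtain ⟨EZ, eZ1, eZ2, eZ3⟩ := exists_mult hZ hnZ (by omega : sZ ≤ D)
  have hρ : (0 : ℝ) < ∏ p ∈ (Nat.gcd t.1 t.2.1).primeFactors, (p : ℝ) :=
    Finset.prod_pos fun p hp => by exact_mod_cast (Nat.prime_of_mem_primeFactors hp).pos
  have hsol : Sol A B C F Q D (fun σ j => ((![EX, EY, EZ] : Fin 3 → Fin (D + 1) → Fin (D + 1)) σ j : ℕ))
      ![bX, bY, bZ] ![nX, nY, nZ] ![sX, sY, sZ] ![t.1, t.2.1, t.2.2] := by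
    refine ⟨hrel, ?_, ?_, ?_, ?_, ?_, ?_, ?_, ?_⟩
    · intro σ
      fin_cases σ
      · exact hX.1
      · exact hY.1
      · exact hZ.1
    · intro σ
      fin_cases σ
      · exact hnX
      · exact hnY
      · exact hnZ
    · intro σ
      fin_cases σ
      · exact eX1
      · exact eY1
      · exact eZ1
    · intro σ
      fin_cases σ
      · exact eX2
      · exact eY2
      · exact eZ2
    · intro σ
      fin_cases σ
      · exact lX
      · exact lY
      · exact lZ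
    · intro σ
      fin_cases σ
      · exact eX3
      · exact eY3
      · exact eZ3
    · rw [Fin.sum_univ_three]
      exact hdeg
    · show ((Nat.gcd t.1 t.2.1 : ℕ) : ℝ) ≤
        Q * ((∏ p ∈ (Nat.gcd t.1 t.2.1).primeFactors, p : ℕ) : ℝ)
      rw [div_le_iff₀ hρ] at hgcd
      push_cast
      exact hgcd
  have hsp : ∀ σ, IsSparse Γ k M ((![bX, bY, bZ] : Fin 3 → ℕ) σ) := by
    intro σ
    fin_cases σ
    · exact spX
    · exact spY
    · exact spZ
  have h1 : 1 ≤ t.1 := hsol.Wpos 0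
  have h2 : 1 ≤ t.2.1 := hsol.Wpos 1
  have h3 : 1 ≤ t.2.2 := hsol.Wpos 2
  refine ⟨h1, h2, h3, ?_⟩
  have hmax : ∃ σ : Fin 3, (![t.1, t.2.1, t.2.2] : Fin 3 → ℕ) σ = max t.1 (max t.2.1 t.2.2) := by
    rcases max_choice t.1 (max t.2.1 t.2.2) with h | h
    · exact ⟨0, h.symm⟩
    · rcases max_choice t.2.1 t.2.2 with h' | h'
      · exact ⟨1, by rw [h, h']; rfl⟩
      · exact ⟨2, by rw [h, h']; rfl⟩
  obtain ⟨σ, hσ⟩ := hmax
  have hlN : 0 ≤ Real.log ((N : ℝ) + 1) := Real.log_nonneg (by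
    have : (0 : ℝ) ≤ N := Nat.cast_nonneg _
    linarith)
  rcases hall M hM (![EX, EY, EZ]) _ _ _ _ hsol hsp with h | h
  · have h4 := h σ
    rw [hσ] at h4
    have h5 : Real.log ((max t.1 (max t.2.1 t.2.2) : ℕ) : ℝ) ≤ Real.log ((N : ℝ) + 1) := by
      refine Real.log_le_log ?_ ?_
      · have : 0 < max t.1 (max t.2.1 t.2.2) := lt_of_lt_of_le h1 (le_max_left _ _)
        exact_mod_cast this
      · have : ((max t.1 (max t.2.1 t.2.2) : ℕ) : ℝ) ≤ N := by exact_mod_cast h4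
        linarith
    nlinarith [mul_nonneg hC1 hlM, mul_nonneg hlN hlM]
  · have h4 := h σ
    rw [hσ] at h4
    nlinarith [mul_nonneg hC1 hlM, mul_nonneg hlN hlM]

/-- **Q1 for sparse bases.** Let `A`, `B`, `C` be positive integers, `F < 1`, `Q` real, `D`, `k` natural numbers and `Γ` a
finitely generated group of nonzero rational numbers. There is `K` such that all triples of Q1 of degrees at most `D` whose
bases are sums of `k` products `u c`, `u ∈ Γ`, `c` an integer with `|c| ≤ M`, satisfy `max (X, Y, Z) ≤ (K M) ^ K`, for all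
`M ≥ 1`. There is `δ > 0` such that only finitely many triples of Q1 have degrees at most `D` and bases of this form with
`|c| ≤ max (X, Y, Z) ^ δ`. -/
theorem result (A B C : ℕ) (hA : 0 < A) (hB : 0 < B) (hC : 0 < C) (F Q : ℝ) (hF : F < 1)
    (D k : ℕ) (Γ : Subgroup ℚˣ) (hΓ : Γ.FG) :
    (∃ K : ℝ, 0 < K ∧ ∀ M : ℝ, 1 ≤ M → ∀ t ∈ Solutions A B C F Q D k Γ M,
      ((max t.1 (max t.2.1 t.2.2) : ℕ) : ℝ) ≤ (K * M) ^ K) ∧
    ∃ δ : ℝ, 0 < δ ∧
      {t : ℕ × ℕ × ℕ | t ∈ Solutions A B C F Q D k Γ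
        (((max t.1 (max t.2.1 t.2.2) : ℕ) : ℝ) ^ δ)}.Finite := by
  obtain ⟨K0, hK0, hlog⟩ := log_bound A B C hA hB hC F Q hF D k Γ hΓ
  constructor
  · obtain ⟨K, hK, hpow⟩ := Pool.Agent.TH551.HA.pow_form K0
    refine ⟨K, hK, ?_⟩
    intro M hM t ht
    obtain ⟨h1, _, _, h4⟩ := hlog M hM t ht
    have h5 : (1 : ℝ) ≤ ((max t.1 (max t.2.1 t.2.2) : ℕ) : ℝ) := by
      have : 1 ≤ max t.1 (max t.2.1 t.2.2) := h1.trans (le_max_left _ _)
      exact_mod_cast this
    have h6 := hpow M hM _ 1 0 h5 le_rfl (by simpa using h4)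
    simpa using h6
  · refine ⟨1 / (2 * (K0 + 1)), by positivity, ?_⟩
    set δ : ℝ := 1 / (2 * (K0 + 1)) with hδ
    set NN : ℕ := ⌊Real.exp (2 * K0)⌋₊ with hNN
    refine (((Set.finite_Iic NN).prod ((Set.finite_Iic NN).prod (Set.finite_Iic NN))).subset ?_)
    intro t ht
    have ht' : t ∈ Solutions A B C F Q D k Γ (((max t.1 (max t.2.1 t.2.2) : ℕ) : ℝ) ^ δ) := ht
    set H : ℕ := max t.1 (max t.2.1 t.2.2) with hH
    have hHle : H ≤ NN := by
      rcases Nat.eq_zero_or_pos H with h0 | h0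
      · omega
      have hH1 : (1 : ℝ) ≤ (H : ℝ) := by exact_mod_cast h0
      have hδ0 : 0 < δ := by positivity
      have hM : 1 ≤ (H : ℝ) ^ δ := Real.one_le_rpow hH1 hδ0.le
      obtain ⟨_, _, _, h4⟩ := hlog _ hM t ht'
      rw [← hH, Real.log_rpow (by linarith)] at h4
      have hlH : 0 ≤ Real.log H := Real.log_nonneg hH1
      have h5 : K0 * δ ≤ 1 / 2 := by
        rw [hδ, mul_one_div, div_le_div_iff₀ (by positivity) (by norm_num)]
        linarith
      have h6 : Real.log H ≤ 2 * K0 := by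
        nlinarith [mul_le_mul_of_nonneg_right h5 hlH]
      rw [hNN]
      refine Nat.le_floor ?_
      rw [← Real.exp_log (show (0 : ℝ) < (H : ℝ) by linarith)]
      exact Real.exp_le_exp.2 h6
    have h7 : t.1 ≤ H := le_max_left _ _
    have h8 : t.2.1 ≤ H := (le_max_left _ _).trans (le_max_right _ _)
    have h9 : t.2.2 ≤ H := (le_max_right _ _).trans (le_max_right _ _)
    exact ⟨h7.trans hHle, h8.trans hHle, h9.trans hHle⟩

end Pool.Agent.Results.MP_4ffbf9_nt.SparseBases
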